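import Pool.Agent.Y760.ST.Stm
import Pool.Agent.TH507.ZS.Poly

set_option autoImplicit false

namespace Pool.Agent.Y379.ST

open Filter Topology ArithmeticFunction

lemma sh_eq (f : ArithmeticFunction ℚ) (j : ℕ) :
    Pool.Agent.Y760.ST.sh f j = Pool.Agent.TH507.ZS.sh f j := by
  ext k
  rw [Pool.Agent.TH507.ZS.sh_apply]
  show (if k = 0 then (0 : ℚ) else f k / (k : ℚ) ^ j) = f k / (k : ℚ) ^ j
  split_ifs with h
  · rw [h]
    simp
  · rfl

lemma mo_rep {f : ArithmeticFunction ℚ} (h1 : f.IsMultiplicative)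
    (h2 : Pool.Agent.TH507.ZS.PB f) {h : ℕ} (e : Fin h →₀ ℕ) :
    Pool.Agent.TH507.ZS.Rep (Pool.Agent.Y760.ST.mo f h e)
      (fun n => ∏ j : Fin h, Pool.Agent.TH507.ZS.dser f (n + j) ^ (e j))
      (fun p => ∑ j : Fin h, (e j : ℚ) * (f p / (p : ℚ) ^ (j : ℕ))) := by
  have h3 : Pool.Agent.Y760.ST.mo f h e =
      ∏ j : Fin h, (Pool.Agent.TH507.ZS.sh f (j : ℕ)) ^ (e j) := by
    unfold Pool.Agent.Y760.ST.mo
    refine Finset.prod_congr rfl fun j _ => ?_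
    rw [sh_eq]
  rw [h3]
  exact Pool.Agent.TH507.ZS.Rep.prod' Finset.univ
    (fun j : Fin h => Pool.Agent.TH507.ZS.sh f (j : ℕ) ^ (e j)) _ _
    fun j _ => (Pool.Agent.TH507.ZS.sh_rep h1 h2 (j : ℕ)).pow' (e j)

lemma sep (h d : ℕ) (e e' : Fin h → ℕ) (he : (∑ j, e j) ≤ d) (he' : (∑ j, e' j) ≤ d)
    (hne : e ≠ e') (p : ℕ) (hp : p.Prime) (hd : d < p) :
    ∑ j : Fin h, (e j : ℚ) / (p : ℚ) ^ (j : ℕ) ≠ ∑ j : Fin h, (e' j : ℚ) / (p : ℚ) ^ (j : ℕ) := by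
  classical
  intro heq
  have hex : (Finset.univ.filter (fun j : Fin h => e j ≠ e' j)).Nonempty := by
    by_contra hcon
    rw [Finset.not_nonempty_iff_eq_empty] at hcon
    apply hne
    funext j
    by_contra hj
    have : j ∈ Finset.univ.filter (fun j : Fin h => e j ≠ e' j) := by simp [hj]
    rw [hcon] at this
    simp at this
  obtain ⟨J, hJ, hmax⟩ := Finset.exists_max_image _ (fun j : Fin h => (j : ℕ)) hex
  have hJne : e J ≠ e' J := (Finset.mem_filter.1 hJ).2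
  have hbig : ∀ j : Fin h, (J : ℕ) < j → e j = e' j := by
    intro j hj
    by_contra hcon
    have := hmax j (Finset.mem_filter.2 ⟨Finset.mem_univ _, hcon⟩)
    omega
  have hp0 : (p : ℚ) ≠ 0 := by exact_mod_cast hp.ne_zero
  have h1 : ∑ j : Fin h, ((e j : ℚ) - (e' j : ℚ)) * (p : ℚ) ^ ((J : ℕ) - (j : ℕ)) = 0 := by
    have h2 : ∑ j : Fin h, ((e j : ℚ) - (e' j : ℚ)) * (p : ℚ) ^ ((J : ℕ) - (j : ℕ)) =
        (p : ℚ) ^ (J : ℕ) * (∑ j : Fin h, (e j : ℚ) / (p : ℚ) ^ (j : ℕ) -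
          ∑ j : Fin h, (e' j : ℚ) / (p : ℚ) ^ (j : ℕ)) := by
      rw [← Finset.sum_sub_distrib, Finset.mul_sum]
      refine Finset.sum_congr rfl fun j _ => ?_
      rcases lt_or_ge (J : ℕ) (j : ℕ) with hj | hj
      · rw [hbig j hj]
        ring
      · have h3 : (p : ℚ) ^ (J : ℕ) = (p : ℚ) ^ ((J : ℕ) - (j : ℕ)) * (p : ℚ) ^ (j : ℕ) := by
          rw [← pow_add]
          congr 1
          omega
        rw [h3]
        field_simp
    rw [h2, heq, sub_self, mul_zero]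
  have h2 : ∑ j : Fin h, ((e j : ℤ) - (e' j : ℤ)) * (p : ℤ) ^ ((J : ℕ) - (j : ℕ)) = 0 := by
    exact_mod_cast h1
  have h3 : (p : ℤ) ∣ ((e J : ℤ) - (e' J : ℤ)) := by
    rw [← Finset.add_sum_erase _ _ (Finset.mem_univ J)] at h2
    rw [Nat.sub_self, pow_zero, mul_one] at h2
    have h4 : (p : ℤ) ∣ ∑ j ∈ Finset.univ.erase J,
        ((e j : ℤ) - (e' j : ℤ)) * (p : ℤ) ^ ((J : ℕ) - (j : ℕ)) := by
      refine Finset.dvd_sum fun j hj => ?_
      have hj' : j ≠ J := (Finset.mem_erase.1 hj).1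
      rcases lt_or_ge (J : ℕ) (j : ℕ) with hj2 | hj2
      · rw [hbig j hj2, sub_self, zero_mul]
        exact dvd_zero _
      · have hlt : (j : ℕ) < J := lt_of_le_of_ne hj2 fun h => hj' (Fin.ext h)
        exact Dvd.dvd.mul_left (dvd_pow_self _ (by omega)) _
    have h5 := (Int.dvd_add_left h4).1 (by rw [h2]; exact dvd_zero _)
    exact h5
  have hb1 : e J ≤ d := (Finset.single_le_sum (f := e) (fun _ _ => Nat.zero_le _)
    (Finset.mem_univ J)).trans he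
  have hb2 : e' J ≤ d := (Finset.single_le_sum (f := e') (fun _ _ => Nat.zero_le _)
    (Finset.mem_univ J)).trans he'
  have h6 : ((e J : ℤ) - (e' J : ℤ)) = 0 := by
    apply Int.eq_zero_of_abs_lt_dvd h3
    rw [abs_lt]
    constructor <;> omega
  apply hJne
  omega

theorem fam : Pool.Agent.Y760.ST.FamStmt := by
  intro f hf hb κ hκ hp h d
  refine ⟨fun e => ⟨(mo_rep hf hb e).mul, (mo_rep hf hb e).pb, (mo_rep hf hb e).ser⟩, ?_⟩
  intro e e' he he' hne p hpp hdp heq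
  rw [(mo_rep hf hb e).prime p hpp, (mo_rep hf hb e').prime p hpp, hp p hpp] at heq
  have hne' : (e : Fin h → ℕ) ≠ (e' : Fin h → ℕ) := fun hc => hne (DFunLike.coe_injective hc)
  apply sep h d e e' he he' hne' p hpp hdp
  have h1 : ∀ g : Fin h →₀ ℕ, ∑ j : Fin h, (g j : ℚ) * (κ / (p : ℚ) ^ (j : ℕ)) =
      κ * ∑ j : Fin h, (g j : ℚ) / (p : ℚ) ^ (j : ℕ) := by
    intro g
    rw [Finset.mul_sum]
    refine Finset.sum_congr rfl fun j _ => ?_
    ring
  rw [h1, h1] at heq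
  exact mul_left_cancel₀ hκ heq

end Pool.Agent.Y379.ST
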